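import Pool.Agent.Helper87.FX.StB

set_option autoImplicit false

/-! # Module EXH of project FX: the exhaustion property of the product with V -/

namespace Pool.Agent.Helper24.FX

open Set Topology Metric Filter Pool.Agent.Helper87.FX

theorem hEXH : StNUL → StPSH → StEXH := by
  intro hNUL hPSH E V _ _ _ _ _ Y U0 e0 F y₀ hWC hRet hHmt hApx hU0 hyY hyU hOE hran K hK hKY
  have hL : IsCompact (Prod.fst '' K) := hK.image continuous_fst
  have hLY : Prod.fst '' K ⊆ Y := by
    rintro _ ⟨z, hz, rfl⟩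
    exact (hKY hz).1
  obtain ⟨H, hH1, hH2, hH3, hH4⟩ := hNUL V Y hWC hRet (Prod.fst '' K) y₀ hL hLY hyY
  have hR := hHmt (Prod.fst '' K) H hL hLY hH1 hH2 hH3
  have hM : MapsTo (fun x => H x 1) (Prod.fst '' K) U0 := by
    intro x hx
    show H x 1 ∈ U0
    rw [hH4 x hx]
    exact hyU
  obtain ⟨G, hG1, hG2⟩ := hApx (Prod.fst '' K) U0 (fun x => H x 1) hL hLY hR hU0 hM
  exact hPSH E V Y U0 e0 K G hU0 hOE hran hK hKY hG1
    (fun z hz => hG2 z.1 (mem_image_of_mem Prod.fst hz))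

end Pool.Agent.Helper24.FX
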