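import Pool.Agent.Helper9.FX.StP

set_option autoImplicit false

/-! # Module PPI of project FX: the intersection piece of P -/

namespace Pool.Agent.Helper24.FX

open Set Complex
open Pool.Agent.Helper84.FX (Mp WE Htp II StHEQ)
open Pool.Agent.Helper72.FX (nu)
open Pool.Agent.Helper9.FX

noncomputable section

private def ta (r : ℝ) : ℂ := be r / al r

private theorem al_ne {r : ℝ} (h0 : 0 < r) (h1 : r < 1) : al (r : ℂ) ≠ 0 := by
  have h : al (r : ℂ) = ((1 - r ^ 2 : ℝ) : ℂ) := by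
    simp only [al]; push_cast; ring
  rw [h]
  have h2 : (1 - r ^ 2 : ℝ) ≠ 0 := by
    have : 0 < (1 - r) * (1 + r) := mul_pos (by linarith) (by linarith)
    intro h3
    nlinarith
  exact_mod_cast h2

private theorem be_ne {r : ℝ} (h0 : 0 < r) (h1 : r < 1) : be (r : ℂ) ≠ 0 := by
  have h : be (r : ℂ) = ((2 * r - r ^ 2 : ℝ) : ℂ) := by
    simp only [be]; push_cast; ring
  rw [h]
  have h2 : (2 * r - r ^ 2 : ℝ) ≠ 0 := by
    have : 0 < r * (2 - r) := mul_pos (by linarith) (by linarith)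
    intro h3
    nlinarith
  exact_mod_cast h2

private theorem ta_ne {r : ℝ} (h0 : 0 < r) (h1 : r < 1) : ta r ≠ 0 :=
  div_ne_zero (be_ne h0 h1) (al_ne h0 h1)

private theorem ta_half : ta (1 / 2) = 1 := by
  simp only [ta, be, al]
  push_cast
  norm_num

private theorem ta_cont : ContinuousOn ta (Ioo (0 : ℝ) 1) := by
  have h1 : Continuous (fun r : ℝ => be (r : ℂ)) := by
    simp only [be]; fun_prop
  have h2 : Continuous (fun r : ℝ => al (r : ℂ)) := by
    simp only [al]; fun_prop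
  exact h1.continuousOn.div h2.continuousOn (fun r hr => al_ne hr.1 hr.2)

private def mA (w l : ℂ) : ℂ := (l - l⁻¹) / (2 * w)
private def mB (t l : ℂ) : ℂ := ((l + l⁻¹) / 2 - 1) / t

private theorem nu_m {t w l : ℂ} (hw : w ^ 2 = t) (ht : t ≠ 0) (hl : l ≠ 0) :
    nu (mA w l) (mB t l) t = 0 := by
  have hw0 : w ≠ 0 := by
    rintro rfl
    apply ht
    rw [← hw]; ring
  subst hw
  simp only [nu, mA, mB]
  field_simp
  ring

private theorem lam_m {t w l : ℂ} (hw : w ^ 2 = t) (ht : t ≠ 0) :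
    1 + t * mB t l + w * mA w l = l := by
  have hw0 : w ≠ 0 := by
    rintro rfl
    apply ht
    rw [← hw]; ring
  simp only [mA, mB]
  rw [mul_div_cancel₀ _ ht]
  have : w * ((l - l⁻¹) / (2 * w)) = (l - l⁻¹) / 2 := by
    field_simp
  rw [this]
  ring

private theorem inv_lam {t w a b : ℂ} (hw : w ^ 2 = t) (hn : nu a b t = 0) :
    (1 + t * b + w * a) * (1 + t * b - w * a) = 1 := by
  have h : (1 + t * b + w * a) * (1 + t * b - w * a) = 1 + t * nu a b t + (t - w ^ 2) * a ^ 2 := by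
    simp only [nu]; ring
  rw [h, hn, hw]
  ring

private theorem m_lam {t w a b : ℂ} (hw : w ^ 2 = t) (ht : t ≠ 0) (hn : nu a b t = 0) :
    mA w (1 + t * b + w * a) = a ∧ mB t (1 + t * b + w * a) = b := by
  have hw0 : w ≠ 0 := by
    rintro rfl
    apply ht
    rw [← hw]; ring
  have h1 := inv_lam hw hn
  have h2 : (1 + t * b + w * a)⁻¹ = 1 + t * b - w * a := inv_eq_of_mul_eq_one_right h1
  simp only [mA, mB]
  rw [h2]
  constructor
  · field_simp
    ring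
  · field_simp
    ring

theorem hPPI (hHEQ : StHEQ) : StPPI := by
  intro U s hSQ
  obtain ⟨hU, hsc, hs⟩ := hSQ
  have hs0 : ∀ t ∈ U, s t ≠ 0 := fun t ht h0 => (hs t ht).2 (by rw [← (hs t ht).1, h0]; ring)
  set X : Set EP := PU U ∩ (R1 ∩ R2) with hX
  -- elementary facts on points of X
  have hXt : ∀ q ∈ X, q.2.2.1 ∈ U := fun q hq => hq.1.1
  have hXr : ∀ q ∈ X, q.2.2.2 ∈ Ioo (0 : ℝ) 1 := fun q hq => ⟨hq.2.2, hq.2.1⟩
  have hXn : ∀ q ∈ X, nu q.1 q.2.1 q.2.2.1 = 0 := fun q hq => hq.1.2.2.2 hq.2.2 hq.2.1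
  have hXl : ∀ q ∈ X, 1 + q.2.2.1 * q.2.1 + s q.2.2.1 * q.1 ≠ 0 := by
    intro q hq h0
    have h1 := inv_lam (hs _ (hXt q hq)).1 (hXn q hq)
    rw [h0, zero_mul] at h1
    exact zero_ne_one h1
  have hzP : ∀ q : EP, zP s q = I * ta q.2.2.2 * (1 + q.2.2.1 * q.2.1 + s q.2.2.1 * q.1) :=
    fun q => rfl
  have hXmk : ∀ (a b t : ℂ) (r : ℝ), t ∈ U → 0 < r → r < 1 → nu a b t = 0 → (a, b, t, r) ∈ X :=
    fun a b t r ht h0 h1 hn => ⟨⟨ht, h0.le, h1.le, fun _ _ => hn⟩, h1, h0⟩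
  refine hHEQ EP (ℂ × ℂ) X (UC U) (fun q : EP => (q.2.2.1, zP s q))
    (fun y => (mA (s y.1) (-I * y.2), mB y.1 (-I * y.2), y.1, 1 / 2)) ⟨?_, ?_⟩ ⟨?_, ?_⟩ ?_ ?_
  · -- continuity of f
    have c1 : ContinuousOn (fun q : EP => s q.2.2.1) X :=
      hsc.comp (by fun_prop) (fun q hq => hXt q hq)
    have c2 : ContinuousOn (fun q : EP => ta q.2.2.2) X :=
      ta_cont.comp (by fun_prop) (fun q hq => hXr q hq)
    refine ContinuousOn.prodMk (by fun_prop) ?_
    have c3 : ContinuousOn (fun q : EP => 1 + q.2.2.1 * q.2.1 + s q.2.2.1 * q.1) X :=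
      ContinuousOn.add (by fun_prop) (c1.mul (by fun_prop))
    exact (continuousOn_const.mul c2).mul c3
  · intro q hq
    refine ⟨hXt q hq, ?_⟩
    show zP s q ≠ 0
    rw [hzP]
    exact mul_ne_zero (mul_ne_zero I_ne_zero (ta_ne (hXr q hq).1 (hXr q hq).2)) (hXl q hq)
  · -- continuity of g
    have c1 : ContinuousOn (fun y : ℂ × ℂ => s y.1) (UC U) :=
      hsc.comp (by fun_prop) (fun y hy => hy.1)
    have c2 : ContinuousOn (fun y : ℂ × ℂ => -I * y.2) (UC U) := by fun_prop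
    have c3 : ContinuousOn (fun y : ℂ × ℂ => (-I * y.2)⁻¹) (UC U) :=
      c2.inv₀ (fun y hy => mul_ne_zero (neg_ne_zero.2 I_ne_zero) hy.2)
    refine ContinuousOn.prodMk ?_ (ContinuousOn.prodMk ?_ (by fun_prop))
    · exact (c2.sub c3).div (continuousOn_const.mul c1)
        (fun y hy => mul_ne_zero two_ne_zero (hs0 _ hy.1))
    · exact (((c2.add c3).div_const 2).sub continuousOn_const).div (by fun_prop)
        (fun y hy => (hs _ hy.1).2)
  · intro y hy
    exact hXmk _ _ _ _ hy.1 (by norm_num) (by norm_num) (nu_m (hs _ hy.1).1 (hs _ hy.1).2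
      (mul_ne_zero (neg_ne_zero.2 I_ne_zero) hy.2))
  · -- homotopy on X
    have hr : ∀ z ∈ (II ×ˢ X : Set (ℝ × EP)), (1 - z.1) / 2 + z.1 * z.2.2.2.2 ∈ Ioo (0 : ℝ) 1 := by
      rintro z ⟨⟨h0, h1⟩, hq⟩
      obtain ⟨r0, r1⟩ := hXr _ hq
      constructor
      · rcases h1.lt_or_eq with h2 | h2
        · have := mul_nonneg h0 r0.le
          linarith
        · rw [h2]; linarith
      · rcases h1.lt_or_eq with h2 | h2
        · have h3 : z.1 * z.2.2.2.2 ≤ z.1 * 1 := mul_le_mul_of_nonneg_left r1.le h0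
          linarith
        · rw [h2]; linarith
    have hmu : ∀ z ∈ (II ×ˢ X : Set (ℝ × EP)),
        (1 + z.2.2.2.1 * z.2.2.1 + s z.2.2.2.1 * z.2.1) * ta z.2.2.2.2 /
          ta ((1 - z.1) / 2 + z.1 * z.2.2.2.2) ≠ 0 := fun z hz =>
      div_ne_zero (mul_ne_zero (hXl _ hz.2) (ta_ne (hXr _ hz.2).1 (hXr _ hz.2).2))
        (ta_ne (hr z hz).1 (hr z hz).2)
    refine ⟨fun z => (mA (s z.2.2.2.1) ((1 + z.2.2.2.1 * z.2.2.1 + s z.2.2.2.1 * z.2.1) *
        ta z.2.2.2.2 / ta ((1 - z.1) / 2 + z.1 * z.2.2.2.2)),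
      mB z.2.2.2.1 ((1 + z.2.2.2.1 * z.2.2.1 + s z.2.2.2.1 * z.2.1) *
        ta z.2.2.2.2 / ta ((1 - z.1) / 2 + z.1 * z.2.2.2.2)), z.2.2.2.1,
      (1 - z.1) / 2 + z.1 * z.2.2.2.2), ⟨?_, ?_⟩, ?_, ?_⟩
    · have c1 : ContinuousOn (fun z : ℝ × EP => s z.2.2.2.1) (II ×ˢ X) :=
        hsc.comp (by fun_prop) (fun z hz => hXt _ hz.2)
      have c2 : ContinuousOn (fun z : ℝ × EP => ta z.2.2.2.2) (II ×ˢ X) :=
        ta_cont.comp (by fun_prop) (fun z hz => hXr _ hz.2)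
      have c3 : ContinuousOn (fun z : ℝ × EP => ta ((1 - z.1) / 2 + z.1 * z.2.2.2.2)) (II ×ˢ X) :=
        ta_cont.comp (by fun_prop) (fun z hz => hr z hz)
      have c4 : ContinuousOn (fun z : ℝ × EP =>
          1 + z.2.2.2.1 * z.2.2.1 + s z.2.2.2.1 * z.2.1) (II ×ˢ X) :=
        ContinuousOn.add (by fun_prop) (c1.mul (by fun_prop))
      have c5 := (c4.mul c2).div c3 (fun z hz => ta_ne (hr z hz).1 (hr z hz).2)
      have c6 := c5.inv₀ hmu
      refine ContinuousOn.prodMk ?_ (ContinuousOn.prodMk ?_ (ContinuousOn.prodMk (by fun_prop)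
        (by fun_prop)))
      · exact (c5.sub c6).div (continuousOn_const.mul c1)
          (fun z hz => mul_ne_zero two_ne_zero (hs0 _ (hXt _ hz.2)))
      · exact (((c5.add c6).div_const 2).sub continuousOn_const).div (by fun_prop)
          (fun z hz => (hs _ (hXt _ hz.2)).2)
    · intro z hz
      have ht := hXt _ hz.2
      exact hXmk _ _ _ _ ht (hr z hz).1 (hr z hz).2 (nu_m (hs _ ht).1 (hs _ ht).2 (hmu z hz))
    · intro q hq
      have e1 : ((1 - (0 : ℝ)) / 2 + 0 * q.2.2.2) = 1 / 2 := by norm_num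
      have e2 : -I * zP s q = (1 + q.2.2.1 * q.2.1 + s q.2.2.1 * q.1) * ta q.2.2.2 := by
        rw [hzP]
        have : -I * (I * ta q.2.2.2 * (1 + q.2.2.1 * q.2.1 + s q.2.2.1 * q.1)) =
          -(I * I) * ((1 + q.2.2.1 * q.2.1 + s q.2.2.1 * q.1) * ta q.2.2.2) := by ring
        rw [this, I_mul_I]
        ring
      simp only [Function.comp]
      rw [e1, ta_half, div_one, e2]
    · intro q hq
      have e1 : ((1 - (1 : ℝ)) / 2 + 1 * q.2.2.2) = q.2.2.2 := by ring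
      have ht := hXt q hq
      have e2 := m_lam (hs _ ht).1 (hs _ ht).2 (hXn q hq)
      have e3 : (1 + q.2.2.1 * q.2.1 + s q.2.2.1 * q.1) * ta q.2.2.2 / ta q.2.2.2 =
          1 + q.2.2.1 * q.2.1 + s q.2.2.1 * q.1 :=
        mul_div_cancel_right₀ _ (ta_ne (hXr q hq).1 (hXr q hq).2)
      simp only [id]
      rw [e1, e3, e2.1, e2.2]
  · -- homotopy on UC
    refine ⟨fun z => z.2, ⟨by fun_prop, fun z hz => hz.2⟩, ?_, fun y _ => rfl⟩
    intro y hy
    have h1 := lam_m (l := -I * y.2) (hs _ hy.1).1 (hs _ hy.1).2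
    simp only [Function.comp]
    rw [hzP]
    simp only
    rw [h1, ta_half]
    have h2 : I * 1 * (-I * y.2) = -(I * I) * y.2 := by ring
    rw [h2, I_mul_I, neg_neg, one_mul]

end

end Pool.Agent.Helper24.FX
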